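/-
MP_ed7341_co, fixed rank: the combinatorial part. `R` is the affine part of a configuration
without M(K_4)-minor, written in the coordinates of a basis contained in the configuration.
-/
import Mathlib

set_option autoImplicit false
set_option linter.unusedSectionVars false

namespace MPed7341FR

open Finset

variable {ι F : Type} [Fintype ι] [DecidableEq ι] [Field F] [Fintype F] [DecidableEq F]

/-- put `0` on the coordinates in `J`. -/
def drop (J : Finset ι) (r : ι → F) : ι → F := fun k => if k ∈ J then 0 else r k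

/-- some other element of `R` differs from `r` only at `i`. -/
def Mate (R : Finset (ι → F)) (i : ι) (r : ι → F) : Prop :=
  ∃ s ∈ R, s ≠ r ∧ ∀ k, k ≠ i → s k = r k

/-- no rectangle in the projections to two coordinates. -/
def RectFree (R : Finset (ι → F)) : Prop :=
  ∀ i j, i ≠ j → ∀ a ∈ R, ∀ b ∈ R, ∀ c ∈ R, ∀ d ∈ R, a j = b j → c j = d j → a i = c i →
    b i = d i → a i ≠ b i → a j ≠ c j → False

/-- a corner and a pair in the diagonal direction of the corner are in one plane. -/
def CrossFree (R : Finset (ι → F)) : Prop :=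
  ∀ i j, i ≠ j → ∀ r ∈ R, ∀ e ∈ R, ∀ f ∈ R, e ≠ r → (∀ k, k ≠ i → e k = r k) → f ≠ r →
    (∀ k, k ≠ j → f k = r k) → ∀ w ∈ R, ∀ w' ∈ R, w ≠ w' →
    (∀ k, k ≠ i → k ≠ j → w k = w' k) →
    (w j - w' j) * (e i - r i) + (f j - r j) * (w i - w' i) = 0 →
    ∀ k, k ≠ i → k ≠ j → w k = r k

/-- the property used in the counting. -/
def Good (R : Finset (ι → F)) : Prop :=
  RectFree R ∧ ∀ J : Finset ι, CrossFree (R.image (drop J))

lemma drop_drop (J K : Finset ι) (r : ι → F) : drop J (drop K r) = drop (K ∪ J) r := by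
  funext k
  by_cases h1 : k ∈ J <;> by_cases h2 : k ∈ K <;> simp [drop, h1, h2]

lemma drop_empty (r : ι → F) : drop (∅ : Finset ι) r = r := by
  funext k; simp [drop]

lemma image_drop_drop (J K : Finset ι) (R : Finset (ι → F)) :
    (R.image (drop K)).image (drop J) = R.image (drop (K ∪ J)) := by
  rw [Finset.image_image]
  congr 1
  funext r
  exact drop_drop J K r

lemma RectFree.drop {R : Finset (ι → F)} (h : RectFree R) (J : Finset ι) :
    RectFree (R.image (drop J)) := by
  intro i j hij a ha b hb c hc d hd h1 h2 h3 h4 h5 h6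
  obtain ⟨a, ha0, rfl⟩ := Finset.mem_image.1 ha
  obtain ⟨b, hb0, rfl⟩ := Finset.mem_image.1 hb
  obtain ⟨c, hc0, rfl⟩ := Finset.mem_image.1 hc
  obtain ⟨d, hd0, rfl⟩ := Finset.mem_image.1 hd
  by_cases hi : i ∈ J
  · exact h5 (by simp [MPed7341FR.drop, hi])
  by_cases hj : j ∈ J
  · exact h6 (by simp [MPed7341FR.drop, hj])
  simp only [MPed7341FR.drop, hi, hj, if_false] at h1 h2 h3 h4 h5 h6
  exact h i j hij a ha0 b hb0 c hc0 d hd0 h1 h2 h3 h4 h5 h6

lemma Good.drop {R : Finset (ι → F)} (h : Good R) (J : Finset ι) :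
    Good (R.image (drop J)) := by
  refine ⟨h.1.drop J, fun K => ?_⟩
  rw [image_drop_drop]
  exact h.2 _

lemma Good.cross {R : Finset (ι → F)} (h : Good R) : CrossFree R := by
  have h1 := h.2 ∅
  have h2 : R.image (MPed7341FR.drop (∅ : Finset ι)) = R := by
    ext r
    simp [drop_empty]
  rwa [h2] at h1

/-- (1) ordered pairs which differ only at `i`. -/
lemma card_pairs' {R : Finset (ι → F)} (h : RectFree R) (i : ι) :
    ((R ×ˢ R).filter (fun p => p.1 ≠ p.2 ∧ ∀ k, k ≠ i → p.1 k = p.2 k)).card ≤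
      Fintype.card F * Fintype.card F - Fintype.card F := by
  classical
  rw [← Finset.card_univ, ← Finset.offDiag_card]
  apply Finset.card_le_card_of_injOn (fun p => (p.1 i, p.2 i))
  · rintro ⟨r, s⟩ hp
    simp only [Finset.coe_filter, Finset.mem_product, Set.mem_ofPred_eq] at hp
    obtain ⟨⟨hr, hs⟩, hne, hag⟩ := hp
    refine Finset.mem_coe.2 (Finset.mem_offDiag.2 ⟨Finset.mem_univ _, Finset.mem_univ _, ?_⟩)
    intro h0
    apply hne
    funext k
    by_cases hk : k = i
    · rw [hk]; exact h0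
    · exact hag k hk
  · rintro ⟨r, s⟩ hp ⟨r', s'⟩ hp' heq
    simp only [Finset.coe_filter, Finset.mem_product, Set.mem_ofPred_eq] at hp hp'
    obtain ⟨⟨hr, hs⟩, hne, hag⟩ := hp
    obtain ⟨⟨hr', hs'⟩, hne', hag'⟩ := hp'
    simp only [Prod.mk.injEq] at heq
    obtain ⟨e1, e2⟩ := heq
    have hi : r i ≠ s i := by
      intro h0
      apply hne
      funext k
      by_cases hk : k = i
      · rw [hk, h0]
      · exact hag k hk
    have hrr : r = r' := by
      by_contra hcon
      obtain ⟨j, hj⟩ := Function.ne_iff.1 hcon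
      have hji : j ≠ i := by
        rintro rfl
        exact hj e1
      exact h i j (Ne.symm hji) r hr s hs r' hr' s' hs' (hag j hji) (hag' j hji) e1 e2 hi hj
    subst hrr
    have hss : s = s' := by
      funext k
      by_cases hk : k = i
      · rw [hk, e2]
      · rw [← hag k hk, ← hag' k hk]
    rw [hss]

lemma card_pairs {R : Finset (ι → F)} (h : RectFree R) (i : ι) :
    ((R ×ˢ R).filter (fun p => p.1 ≠ p.2 ∧ ∀ k, k ≠ i → p.1 k = p.2 k)).card ≤
      Fintype.card F ^ 2 := by
  refine (card_pairs' h i).trans ?_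
  rw [sq]
  exact Nat.sub_le _ _

/-- dropping one coordinate loses at most `q (q - 1) / 2` elements. -/
lemma card_drop {R : Finset (ι → F)} (h : RectFree R) (i : ι) :
    2 * R.card + Fintype.card F ≤
      2 * (R.image (drop {i})).card + Fintype.card F * Fintype.card F := by
  classical
  set T := R.image (drop {i}) with hT
  have hfib : R.card = ∑ v ∈ T, (R.filter (fun u => drop {i} u = v)).card :=
    Finset.card_eq_sum_card_fiberwise (fun u hu => Finset.mem_coe.2 (Finset.mem_image_of_mem _ (Finset.mem_coe.1 hu)))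
  set P := (R ×ˢ R).filter (fun p => p.1 ≠ p.2 ∧ ∀ k, k ≠ i → p.1 k = p.2 k) with hP
  have hP1 : P.card = ∑ v ∈ T, (R.filter (fun u => drop {i} u = v)).offDiag.card := by
    rw [Finset.card_eq_sum_card_fiberwise (f := fun p : (ι → F) × (ι → F) => drop {i} p.1) (t := T)]
    · apply Finset.sum_congr rfl
      intro v _
      congr 1
      ext ⟨a, b⟩
      simp only [hP, Finset.mem_filter, Finset.mem_product, Finset.mem_offDiag]
      constructor
      · rintro ⟨⟨⟨ha, hb⟩, hab, hag⟩, hv⟩
        refine ⟨⟨ha, hv⟩, ⟨hb, ?_⟩, hab⟩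
        rw [← hv]
        funext k
        by_cases hk : k = i
        · simp [drop, hk]
        · simp [drop, hk, hag k hk]
      · rintro ⟨⟨ha, hv⟩, ⟨hb, hv'⟩, hab⟩
        refine ⟨⟨⟨ha, hb⟩, hab, ?_⟩, hv⟩
        intro k hk
        have := congrFun (hv.trans hv'.symm) k
        simpa [drop, hk] using this
    · intro p hp
      have hp' := Finset.mem_coe.1 hp
      rw [hP, Finset.mem_filter, Finset.mem_product] at hp'
      exact Finset.mem_coe.2 (Finset.mem_image_of_mem _ hp'.1.1)
  have hle : 2 * R.card ≤ 2 * T.card + P.card := by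
    rw [hfib, hP1, Finset.mul_sum, Finset.card_eq_sum_ones T, Finset.mul_sum, ← Finset.sum_add_distrib]
    apply Finset.sum_le_sum
    intro v hv
    rw [Finset.offDiag_card]
    have hpos : 0 < (R.filter (fun u => drop {i} u = v)).card := by
      obtain ⟨u, hu, huv⟩ := Finset.mem_image.1 hv
      exact Finset.card_pos.2 ⟨u, Finset.mem_filter.2 ⟨hu, huv⟩⟩
    set m := (R.filter (fun u => drop {i} u = v)).card
    obtain ⟨t, ht⟩ : ∃ t, m = t + 1 := ⟨m - 1, by omega⟩
    rw [ht]
    have : (t + 1) * (t + 1) - (t + 1) = (t + 1) * t := by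
      rw [← Nat.mul_sub_one]; rfl
    rw [this]
    nlinarith [Nat.zero_le t, mul_self_nonneg ((t : ℤ) - 1), Nat.le_mul_self t]
  have hPc := card_pairs' h i
  have hqq : Fintype.card F ≤ Fintype.card F * Fintype.card F := Nat.le_mul_self _
  have hP2 : P.card ≤ Fintype.card F * Fintype.card F - Fintype.card F := hPc
  omega

/-- the linear bound. -/
lemma card_lin (K : Finset ι) : ∀ R : Finset (ι → F), RectFree R →
    (∀ r ∈ R, ∀ k, k ∉ K → r k = 0) →
    2 * R.card + K.card * Fintype.card F ≤ 2 + K.card * (Fintype.card F * Fintype.card F) := by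
  classical
  induction K using Finset.induction_on with
  | empty =>
    intro R _ hz
    have : R.card ≤ 1 := by
      rw [Finset.card_le_one]
      intro a ha b hb
      funext k
      rw [hz a ha k (Finset.notMem_empty _), hz b hb k (Finset.notMem_empty _)]
    simp only [Finset.card_empty, Nat.zero_mul]
    omega
  | insert j K hjK ih =>
    intro R hG hz
    have h1 := card_drop hG j
    have h7 := ih (R.image (drop {j})) (hG.drop {j}) (by
      intro r hr k hk
      obtain ⟨r, hr0, rfl⟩ := Finset.mem_image.1 hr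
      by_cases hkj : k = j
      · simp [drop, hkj]
      · simp only [drop, Finset.mem_singleton, hkj, if_false]
        exact hz r hr0 k (by simp [hkj, hk]))
    rw [Finset.card_insert_of_notMem hjK, Nat.add_mul, Nat.add_mul, Nat.one_mul, Nat.one_mul]
    omega

/-- the affine part has fewer than `q ^ (k + 1)` points. -/
theorem card_lt_lin {n : ℕ} (R : Finset (Fin n → F)) (hG : RectFree R) (k : ℕ)
    (hn : n ≤ 2 * ∑ i ∈ Finset.range k, Fintype.card F ^ i) :
    R.card < Fintype.card F ^ (k + 1) := by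
  have hq2 : 2 ≤ Fintype.card F := Fintype.one_lt_card
  have h1 := card_lin (Finset.univ : Finset (Fin n)) R hG
    (fun r _ k hk => absurd (Finset.mem_univ k) hk)
  rw [Finset.card_univ, Fintype.card_fin] at h1
  set q := Fintype.card F
  have h2 : (∑ i ∈ Finset.range k, q ^ i) * (q - 1) + 1 = q ^ k := by
    have := Nat.geomSum_eq hq2 k
    have h3 : (q - 1) ∣ (q ^ k - 1) := by
      simpa using Nat.sub_dvd_pow_sub_pow q 1 k
    rw [this, Nat.div_mul_cancel h3]
    exact Nat.sub_add_cancel (Nat.one_le_pow _ _ (by omega))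
  obtain ⟨p, hp⟩ : ∃ p, q = p + 1 := ⟨q - 1, by omega⟩
  have hp1 : q - 1 = p := by omega
  rw [hp1] at h2
  have h3 : n * (q * q) = n * q + n * q * p := by
    rw [hp]; ring
  have h4 : n * q * p ≤ 2 * (∑ i ∈ Finset.range k, q ^ i) * q * p :=
    Nat.mul_le_mul_right _ (Nat.mul_le_mul_right _ hn)
  have h5 : 2 * (∑ i ∈ Finset.range k, q ^ i) * q * p + 2 * q = 2 * q ^ (k + 1) := by
    calc 2 * (∑ i ∈ Finset.range k, q ^ i) * q * p + 2 * q
        = 2 * q * ((∑ i ∈ Finset.range k, q ^ i) * p + 1) := by ring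
      _ = 2 * q ^ (k + 1) := by rw [h2]; ring
  omega

/-- (2) -/
lemma card_sq_le {R U : Finset (ι → F)} (h : RectFree R) (i : ι) (hU : U ⊆ R)
    (hm : ∀ u ∈ U, Mate R i u) :
    U.card ^ 2 ≤ 2 * Fintype.card F ^ 2 * (U.image (drop {i})).card := by
  classical
  set T := U.image (drop {i}) with hT
  have hfib : U.card = ∑ v ∈ T, (U.filter (fun u => drop {i} u = v)).card :=
    Finset.card_eq_sum_card_fiberwise (fun u hu => Finset.mem_coe.2 (Finset.mem_image_of_mem _ (Finset.mem_coe.1 hu)))
  set P := (U ×ˢ U).filter (fun p => drop {i} p.1 = drop {i} p.2) with hP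
  have hP1 : P.card = ∑ v ∈ T, (U.filter (fun u => drop {i} u = v)).card ^ 2 := by
    rw [Finset.card_eq_sum_card_fiberwise (f := fun p : (ι → F) × (ι → F) => drop {i} p.1) (t := T)]
    · apply Finset.sum_congr rfl
      intro v _
      rw [sq, ← Finset.card_product]
      congr 1
      ext ⟨a, b⟩
      simp only [hP, Finset.mem_filter, Finset.mem_product]
      constructor
      · rintro ⟨⟨⟨ha, hb⟩, hab⟩, hv⟩
        exact ⟨⟨ha, hv⟩, hb, hab ▸ hv⟩
      · rintro ⟨⟨ha, hv⟩, hb, hv'⟩
        exact ⟨⟨⟨ha, hb⟩, by rw [hv, hv']⟩, hv⟩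
    · intro p hp
      have hp' := Finset.mem_coe.1 hp
      rw [hP, Finset.mem_filter, Finset.mem_product] at hp'
      exact Finset.mem_coe.2 (Finset.mem_image_of_mem _ hp'.1.1)
  have hcs : U.card ^ 2 ≤ T.card * P.card := by
    rw [hP1, hfib]
    exact sq_sum_le_card_mul_sum_sq
  set Q := (R ×ˢ R).filter (fun p => p.1 ≠ p.2 ∧ ∀ k, k ≠ i → p.1 k = p.2 k) with hQ
  have hQc : Q.card ≤ Fintype.card F ^ 2 := card_pairs h i
  -- the diagonal
  have hUQ : U.card ≤ Q.card := by
    choose! m hm1 hm2 hm3 using hm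
    apply Finset.card_le_card_of_injOn (fun u => (u, m u))
    · intro u hu
      have hu' := Finset.mem_coe.1 hu
      refine Finset.mem_coe.2 (Finset.mem_filter.2 ⟨Finset.mem_product.2 ⟨hU hu', hm1 u hu'⟩, ?_, ?_⟩)
      · exact (hm2 u hu').symm
      · intro k hk
        exact (hm3 u hu' k hk).symm
    · intro u _ u' _ heq
      exact (Prod.mk.inj heq).1
  have hPQ : P.card ≤ U.card + Q.card := by
    have h1 : P ⊆ U.image (fun u => (u, u)) ∪ Q := by
      rintro ⟨a, b⟩ hab
      rw [hP, Finset.mem_filter, Finset.mem_product] at hab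
      obtain ⟨⟨ha, hb⟩, hd⟩ := hab
      by_cases hne : a = b
      · subst hne
        exact Finset.mem_union_left _ (Finset.mem_image_of_mem _ ha)
      · refine Finset.mem_union_right _ (Finset.mem_filter.2 ⟨Finset.mem_product.2 ⟨hU ha, hU hb⟩, hne, ?_⟩)
        intro k hk
        have := congrFun hd k
        simpa [drop, hk] using this
    calc P.card ≤ (U.image (fun u => (u, u)) ∪ Q).card := Finset.card_le_card h1
      _ ≤ (U.image (fun u => (u, u))).card + Q.card := Finset.card_union_le _ _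
      _ ≤ U.card + Q.card := Nat.add_le_add_right Finset.card_image_le _
  calc U.card ^ 2 ≤ T.card * P.card := hcs
    _ ≤ T.card * (2 * Fintype.card F ^ 2) := Nat.mul_le_mul_left _ (by omega)
    _ = 2 * Fintype.card F ^ 2 * T.card := Nat.mul_comm _ _

/-- (3) -/
lemma card_planes {R U : Finset (ι → F)} (h : CrossFree R) (i j : ι) (hij : i ≠ j) (hU : U ⊆ R)
    (hi : ∀ u ∈ U, Mate R i u) (hj : ∀ u ∈ U, Mate R j u) :
    (U.image (drop {i, j})).card ≤ Fintype.card F := by
  classical
  choose! e he1 he2 he3 using hi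
  choose! f hf1 hf2 hf3 using hj
  set T := U.image (drop {i, j}) with hT
  have hch : ∀ v ∈ T, ∃ u ∈ U, drop {i, j} u = v := fun v hv => Finset.mem_image.1 hv
  choose! u hu1 hu2 using hch
  have hne : ∀ v ∈ U, e v i - v i ≠ 0 := by
    intro v hv h0
    apply he2 v hv
    funext k
    by_cases hk : k = i
    · rw [hk]; exact sub_eq_zero.1 h0
    · exact he3 v hv k hk
  rw [← Finset.card_univ]
  apply Finset.card_le_card_of_injOn
    (fun v => (f (u v) j - (u v) j) / (e (u v) i - (u v) i)) (fun _ _ => Finset.mem_coe.2 (Finset.mem_univ _))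
  intro v hv v' hv' heq
  have hv := Finset.mem_coe.1 hv
  have hv' := Finset.mem_coe.1 hv'
  have hr := hu1 v hv
  have hr' := hu1 v' hv'
  simp only at heq
  rw [div_eq_div_iff (hne _ hr) (hne _ hr')] at heq
  have hconc := h i j hij (u v) (hU hr) (e (u v)) (he1 _ hr) (f (u v)) (hf1 _ hr) (he2 _ hr)
    (he3 _ hr) (hf2 _ hr) (hf3 _ hr) (e (u v')) (he1 _ hr') (f (u v')) (hf1 _ hr') ?_ ?_ ?_
  · rw [← hu2 v hv, ← hu2 v' hv']
    funext k
    by_cases hk : k = i
    · subst hk; simp [drop]
    by_cases hk' : k = j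
    · subst hk'; simp [drop]
    simp only [drop, Finset.mem_insert, Finset.mem_singleton, hk, hk', or_self, if_false]
    rw [← hconc k hk hk', he3 _ hr' k hk]
  · intro h0
    apply hne _ hr'
    have h1 : e (u v') i = f (u v') i := by rw [h0]
    rw [h1, hf3 _ hr' i hij, sub_self]
  · intro k hk hk'
    rw [he3 _ hr' k hk, hf3 _ hr' k hk']
  · rw [he3 _ hr' j (Ne.symm hij), hf3 _ hr' i hij]
    linear_combination heq

/-- (4) -/
lemma card_corner {R U : Finset (ι → F)} (h : Good R) (i j : ι) (hij : i ≠ j) (hU : U ⊆ R)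
    (hi : ∀ u ∈ U, Mate R i u) (hj : ∀ u ∈ U, Mate R j u) :
    U.card ^ 4 ≤ 8 * Fintype.card F ^ 7 := by
  classical
  have h1 := card_sq_le h.1 i hU hi
  have h2 := card_planes h.cross i j hij hU hi hj
  have h3 := card_sq_le (R := R.image (drop {i})) (U := U.image (drop {i})) (h.1.drop {i}) j
    (Finset.image_subset_image hU) (by
      intro v hv
      obtain ⟨u, hu, rfl⟩ := Finset.mem_image.1 hv
      obtain ⟨s, hs, hne, hag⟩ := hj u hu
      refine ⟨drop {i} s, Finset.mem_image_of_mem _ hs, ?_, ?_⟩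
      · intro h0
        apply hne
        funext k
        by_cases hk : k = j
        · subst hk
          have := congrFun h0 k
          simpa [drop, Ne.symm hij] using this
        · exact hag k hk
      · intro k hk
        by_cases hki : k = i
        · simp [drop, hki]
        · simp [drop, hki, hag k hk])
  rw [image_drop_drop] at h3
  have h4 : ({i} ∪ {j} : Finset ι) = {i, j} := by
    ext k; simp
  rw [h4] at h3
  set q := Fintype.card F
  set A := (U.image (drop {i})).card
  set B := (U.image (drop {i, j})).card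
  calc U.card ^ 4 = (U.card ^ 2) ^ 2 := by ring
    _ ≤ (2 * q ^ 2 * A) ^ 2 := Nat.pow_le_pow_left h1 2
    _ = 4 * q ^ 4 * A ^ 2 := by ring
    _ ≤ 4 * q ^ 4 * (2 * q ^ 2 * B) := Nat.mul_le_mul_left _ h3
    _ ≤ 4 * q ^ 4 * (2 * q ^ 2 * q) := Nat.mul_le_mul_left _ (Nat.mul_le_mul_left _ h2)
    _ = 8 * q ^ 7 := by ring

/-- splitting off the elements without a `j`-mate. -/
lemma card_split {R U : Finset (ι → F)} (j : ι) (hU : U ⊆ R) :
    ∃ U1 U2 : Finset (ι → F), U1 ⊆ U ∧ U2 ⊆ U ∧ (∀ u ∈ U2, Mate R j u) ∧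
      U.card ≤ (U1.image (drop {j})).card + U2.card := by
  classical
  refine ⟨U.filter (fun u => ¬ Mate R j u), U.filter (fun u => Mate R j u),
    Finset.filter_subset _ _, Finset.filter_subset _ _, fun u hu => (Finset.mem_filter.1 hu).2, ?_⟩
  rw [Finset.card_image_of_injOn]
  · rw [← Finset.card_filter_add_card_filter_not (s := U) (fun u => Mate R j u)]
    omega
  · intro a ha b hb hab
    have ha := Finset.mem_filter.1 (Finset.mem_coe.1 ha)
    have hb := Finset.mem_filter.1 (Finset.mem_coe.1 hb)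
    by_contra hne
    apply ha.2
    refine ⟨b, hU hb.1, fun h0 => hne h0.symm, ?_⟩
    intro k hk
    have := congrFun hab k
    simpa [drop, hk] using this.symm

/-- (5a) -/
lemma card_one (b : ℕ) (hb : ∀ m : ℕ, m ^ 4 ≤ 8 * Fintype.card F ^ 7 → m ≤ b) (i : ι)
    (K : Finset ι) : i ∉ K → ∀ R U : Finset (ι → F), Good R →
    (∀ r ∈ R, ∀ k, k ∉ K → k ≠ i → r k = 0) → U ⊆ R → (∀ u ∈ U, Mate R i u) →
    U.card ≤ Fintype.card F + K.card * b := by
  classical
  induction K using Finset.induction_on with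
  | empty =>
    intro _ R U _ hz hU _
    rw [← Finset.card_univ]
    simp only [Finset.card_empty, Nat.zero_mul, Nat.add_zero]
    apply Finset.card_le_card_of_injOn (fun u => u i) (fun _ _ => Finset.mem_coe.2 (Finset.mem_univ _))
    intro a ha b hb hab
    funext k
    by_cases hk : k = i
    · rw [hk]; exact hab
    · rw [hz a (hU ha) k (Finset.notMem_empty _) hk, hz b (hU hb) k (Finset.notMem_empty _) hk]
  | insert j K hjK ih =>
    intro hi R U hG hz hU hm
    have hij : i ≠ j := by
      rintro rfl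
      exact hi (Finset.mem_insert_self _ _)
    have hiK : i ∉ K := fun h => hi (Finset.mem_insert_of_mem h)
    obtain ⟨U1, U2, h1, h2, h3, h4⟩ := card_split (R := R) j hU
    have h5 : U2.card ≤ b := hb _ (card_corner hG i j hij (h2.trans hU)
      (fun u hu => hm u (h2 hu)) h3)
    have h6 : (U1.image (drop {j})).card ≤ Fintype.card F + K.card * b := by
      apply ih hiK (R.image (drop {j})) _ (hG.drop {j})
      · intro r hr k hk hki
        obtain ⟨r, hr0, rfl⟩ := Finset.mem_image.1 hr
        by_cases hkj : k = j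
        · simp [drop, hkj]
        · simp only [drop, Finset.mem_singleton, hkj, if_false]
          exact hz r hr0 k (by simp [hkj, hk]) hki
      · exact Finset.image_subset_image (h1.trans hU)
      · intro v hv
        obtain ⟨u, hu, rfl⟩ := Finset.mem_image.1 hv
        obtain ⟨s, hs, hne, hag⟩ := hm u (h1 hu)
        refine ⟨drop {j} s, Finset.mem_image_of_mem _ hs, ?_, ?_⟩
        · intro h0
          apply hne
          funext k
          by_cases hk : k = i
          · subst hk
            have := congrFun h0 k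
            simpa [drop, hij] using this
          · exact hag k hk
        · intro k hk
          by_cases hkj : k = j
          · simp [drop, hkj]
          · simp [drop, hkj, hag k hk]
    rw [Finset.card_insert_of_notMem hjK]
    calc U.card ≤ (U1.image (drop {j})).card + U2.card := h4
      _ ≤ (Fintype.card F + K.card * b) + b := Nat.add_le_add h6 h5
      _ = Fintype.card F + (K.card + 1) * b := by ring

/-- (5b) -/
lemma card_all (b : ℕ) (hb : ∀ m : ℕ, m ^ 4 ≤ 8 * Fintype.card F ^ 7 → m ≤ b)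
    (K : Finset ι) : ∀ R : Finset (ι → F), Good R → (∀ r ∈ R, ∀ k, k ∉ K → r k = 0) →
    R.card ≤ 1 + K.card * Fintype.card F + K.card.choose 2 * b := by
  classical
  induction K using Finset.induction_on with
  | empty =>
    intro R _ hz
    simp only [Finset.card_empty, Nat.zero_mul, Nat.add_zero]
    have : R.card ≤ 1 := by
      rw [Finset.card_le_one]
      intro a ha b hb
      funext k
      rw [hz a ha k (Finset.notMem_empty _), hz b hb k (Finset.notMem_empty _)]
    have h0 : Nat.choose 0 2 = 0 := rfl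
    rw [h0]
    omega
  | insert j K hjK ih =>
    intro R hG hz
    obtain ⟨U1, U2, h1, h2, h3, h4⟩ := card_split (R := R) j (Finset.Subset.refl R)
    have h5 : U2.card ≤ Fintype.card F + K.card * b := by
      apply card_one b hb j K hjK R U2 hG _ h2 h3
      intro r hr k hk hkj
      exact hz r hr k (by simp [hk, hkj])
    have h6 : (U1.image (drop {j})).card ≤ (R.image (drop {j})).card :=
      Finset.card_le_card (Finset.image_subset_image h1)
    have h7 := ih (R.image (drop {j})) (hG.drop {j}) (by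
      intro r hr k hk
      obtain ⟨r, hr0, rfl⟩ := Finset.mem_image.1 hr
      by_cases hkj : k = j
      · simp [drop, hkj]
      · simp only [drop, Finset.mem_singleton, hkj, if_false]
        exact hz r hr0 k (by simp [hkj, hk]))
    rw [Finset.card_insert_of_notMem hjK, Nat.choose_succ_succ' K.card 1, Nat.choose_one_right]
    calc R.card ≤ (U1.image (drop {j})).card + U2.card := h4
      _ ≤ (1 + K.card * Fintype.card F + K.card.choose 2 * b) +
          (Fintype.card F + K.card * b) := Nat.add_le_add (h6.trans h7) h5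
      _ = 1 + (K.card + 1) * Fintype.card F + (K.card + K.card.choose 2) * b := by ring

/-- the numerical inequality. -/
lemma num_lt (n q b : ℕ) (hq : 2 ≤ q) (hn : (n + 1) ^ 8 ≤ 2 * q) (hb : b ^ 4 ≤ 8 * q ^ 7) :
    1 + n * q + n.choose 2 * b < q ^ 2 := by
  have h1 : (n + 1) ^ 2 * b ≤ 2 * q ^ 2 := by
    have h2 : ((n + 1) ^ 2 * b) ^ 4 ≤ (2 * q ^ 2) ^ 4 := by
      calc ((n + 1) ^ 2 * b) ^ 4 = (n + 1) ^ 8 * b ^ 4 := by ring
        _ ≤ (2 * q) * (8 * q ^ 7) := Nat.mul_le_mul hn hb
        _ = (2 * q ^ 2) ^ 4 := by ring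
    exact (Nat.pow_le_pow_iff_left (by norm_num)).1 h2
  have hc : 2 * n.choose 2 = n * (n - 1) := by
    rw [Nat.choose_two_right, Nat.mul_div_cancel' (Nat.even_mul_pred_self n).two_dvd]
  rcases Nat.eq_zero_or_pos n with h0 | h0
  · subst h0
    simp only [Nat.zero_mul, Nat.add_zero]
    have h00 : Nat.choose 0 2 = 0 := rfl
    rw [h00, Nat.zero_mul, Nat.add_zero]
    nlinarith
  obtain ⟨m, rfl⟩ : ∃ m, n = m + 1 := ⟨n - 1, by omega⟩
  simp only [Nat.add_sub_cancel] at hc
  have h3 : 32 * (m + 2) ^ 2 ≤ q := by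
    have h4 : 64 ≤ (m + 2) ^ 6 := by
      calc 64 = 2 ^ 6 := by norm_num
        _ ≤ (m + 2) ^ 6 := Nat.pow_le_pow_left (by omega) 6
    have h5 : 64 * (m + 2) ^ 2 ≤ 2 * q := by
      calc 64 * (m + 2) ^ 2 ≤ (m + 2) ^ 6 * (m + 2) ^ 2 := Nat.mul_le_mul_right _ h4
        _ = (m + 1 + 1) ^ 8 := by ring
        _ ≤ 2 * q := hn
    omega
  have h6 : (m + 2) ^ 2 * ((m + 1).choose 2 * b) ≤ (m + 1) * m * q ^ 2 := by
    have : 2 * ((m + 2) ^ 2 * ((m + 1).choose 2 * b)) ≤ 2 * ((m + 1) * m * q ^ 2) := by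
      calc 2 * ((m + 2) ^ 2 * ((m + 1).choose 2 * b))
          = (2 * (m + 1).choose 2) * ((m + 1 + 1) ^ 2 * b) := by ring
        _ ≤ (2 * (m + 1).choose 2) * (2 * q ^ 2) := Nat.mul_le_mul_left _ h1
        _ = 2 * ((m + 1) * m * q ^ 2) := by rw [hc]; ring
    omega
  have h7 : (m + 2) ^ 2 * (1 + (m + 1) * q) < (3 * m + 4) * q ^ 2 := by
    have h8 : (m + 2) ^ 2 * (1 + (m + 1) * q) ≤ (m + 2) ^ 2 * ((m + 2) * q) := by
      apply Nat.mul_le_mul_left
      nlinarith
    have h9 : (m + 2) ^ 2 * ((m + 2) * q) * 32 ≤ (m + 2) * q ^ 2 := by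
      calc (m + 2) ^ 2 * ((m + 2) * q) * 32 = (32 * (m + 2) ^ 2) * ((m + 2) * q) := by ring
        _ ≤ q * ((m + 2) * q) := Nat.mul_le_mul_right _ h3
        _ = (m + 2) * q ^ 2 := by ring
    have h10 : 0 < (m + 2) * q ^ 2 := by positivity
    have h11 : (m + 2) * q ^ 2 ≤ (3 * m + 4) * q ^ 2 := Nat.mul_le_mul_right _ (by omega)
    omega
  have h8 : (m + 2) ^ 2 * (1 + (m + 1) * q + (m + 1).choose 2 * b) < (m + 2) ^ 2 * q ^ 2 := by
    calc (m + 2) ^ 2 * (1 + (m + 1) * q + (m + 1).choose 2 * b)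
        = (m + 2) ^ 2 * (1 + (m + 1) * q) + (m + 2) ^ 2 * ((m + 1).choose 2 * b) := by ring
      _ < (3 * m + 4) * q ^ 2 + (m + 1) * m * q ^ 2 := Nat.add_lt_add_of_lt_of_le h7 h6
      _ = (m + 2) ^ 2 * q ^ 2 := by ring
  exact Nat.lt_of_mul_lt_mul_left h8

/-- the affine part has fewer than `q^2` points. -/
theorem card_lt {n : ℕ} (R : Finset (Fin n → F)) (hG : Good R)
    (hn : (n + 1) ^ 8 ≤ 2 * Fintype.card F) : R.card < Fintype.card F ^ 2 := by
  set q := Fintype.card F with hq
  have hq2 : 2 ≤ q := Fintype.one_lt_card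
  set b := Nat.sqrt (Nat.sqrt (8 * q ^ 7)) with hb
  have hb1 : ∀ m : ℕ, m ^ 4 ≤ 8 * q ^ 7 → m ≤ b := by
    intro m hm
    rw [hb, Nat.le_sqrt, Nat.le_sqrt]
    calc m * m * (m * m) = m ^ 4 := by ring
      _ ≤ 8 * q ^ 7 := hm
  have hb2 : b ^ 4 ≤ 8 * q ^ 7 := by
    calc b ^ 4 = (b * b) * (b * b) := by ring
      _ ≤ Nat.sqrt (8 * q ^ 7) * Nat.sqrt (8 * q ^ 7) :=
        Nat.mul_le_mul (Nat.sqrt_le _) (Nat.sqrt_le _)
      _ ≤ 8 * q ^ 7 := Nat.sqrt_le _
  have h1 := card_all b hb1 (Finset.univ : Finset (Fin n)) R hG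
    (fun r _ k hk => absurd (Finset.mem_univ k) hk)
  rw [Finset.card_univ, Fintype.card_fin] at h1
  exact lt_of_le_of_lt h1 (num_lt n q b hq2 hn hb2)

end MPed7341FR
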