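/-
MP_ed7341_co, fixed rank: a configuration without M(K_4)-minor has a good affine part.
-/
import Pool.Agent.Lib.MP_ed7341_co.Defs
import Pool.Agent.Lib.MP_ed7341_co.FR.Comb

set_option autoImplicit false
set_option linter.unusedSectionVars false

namespace MPed7341FR

open Finset MPed7341

variable {F : Type} [Field F] [Fintype F] [DecidableEq F] {V : Type} [AddCommGroup V] [Module F V]
variable {N : ℕ}

/-- the vector with affine coordinates `r`. -/
def pt (x : Fin N → V) (y : V) (r : Fin N → F) : V := (∑ i, r i • x i) + y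

lemma pt_sub (x : Fin N → V) (y : V) (r s : Fin N → F) :
    pt x y r - pt x y s = ∑ k, (r k - s k) • x k := by
  simp only [pt, sub_smul, Finset.sum_sub_distrib]
  abel

lemma pt_sub_one (x : Fin N → V) (y : V) (r s : Fin N → F) (i : Fin N)
    (h : ∀ k, k ≠ i → r k = s k) : pt x y r - pt x y s = (r i - s i) • x i := by
  rw [pt_sub, Finset.sum_eq_single i]
  · intro k _ hk
    rw [h k hk, sub_self, zero_smul]
  · intro h0
    exact absurd (Finset.mem_univ i) h0

lemma pt_sub_two (x : Fin N → V) (y : V) (r s : Fin N → F) (i j : Fin N) (hij : i ≠ j)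
    (h : ∀ k, k ≠ i → k ≠ j → r k = s k) :
    pt x y r - pt x y s = (r i - s i) • x i + (r j - s j) • x j := by
  rw [pt_sub, ← Finset.add_sum_erase _ _ (Finset.mem_univ i)]
  congr 1
  rw [Finset.sum_eq_single j]
  · intro k hk hkj
    rw [h k (Finset.ne_of_mem_erase hk) hkj, sub_self, zero_smul]
  · intro h0
    exact absurd (Finset.mem_erase.2 ⟨hij.symm, Finset.mem_univ j⟩) h0

lemma pt_drop (x : Fin N → V) (y : V) (J : Finset (Fin N)) (W : Submodule F V)
    (hW : ∀ k ∈ J, x k ∈ W) (r : Fin N → F) : pt x y r - pt x y (drop J r) ∈ W := by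
  rw [pt_sub]
  apply Submodule.sum_mem
  intro k _
  by_cases hk : k ∈ J
  · exact W.smul_mem _ (hW k hk)
  · simp [drop, hk]

/-- `r` is a point of the configuration. -/
def IsPt (E : Finset V) (x : Fin N → V) (y : V) (r : Fin N → F) : Prop :=
  ∃ e ∈ E, ∃ c : F, c ≠ 0 ∧ c • e = pt x y r

lemma hit_pt {E : Finset V} {x : Fin N → V} {y : V} {r : Fin N → F} (W : Submodule F V)
    (hr : IsPt E x y r) (v : V) (s : F) (hs : s ≠ 0) (h : pt x y r - s • v ∈ W) :
    Hit W E v := by
  obtain ⟨e, he, c, hc, hce⟩ := hr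
  refine ⟨e, he, c⁻¹ * s, mul_ne_zero (inv_ne_zero hc) hs, ?_⟩
  have h1 : e - (c⁻¹ * s) • v = c⁻¹ • (pt x y r - s • v) := by
    rw [smul_sub, ← hce, smul_smul, inv_mul_cancel₀ hc, one_smul, smul_smul]
  rw [h1]
  exact W.smul_mem _ h

lemma hit_x {E : Finset V} {z : V} (W : Submodule F V) (hz : z ∈ E) (a : F) (ha : a ≠ 0) :
    Hit W E (a • z) := by
  refine ⟨z, hz, a⁻¹, inv_ne_zero ha, ?_⟩
  rw [smul_smul, inv_mul_cancel₀ ha, one_smul, sub_self]
  exact W.zero_mem

lemma vanish (θ : Module.Dual F V) (C : Finset V) (h : ∀ v ∈ C, θ v = 0) :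
    ∀ w ∈ Submodule.span F (C : Set V), θ w = 0 := by
  intro w hw
  have h1 : Submodule.span F (C : Set V) ≤ LinearMap.ker θ := by
    rw [Submodule.span_le]
    intro v hv
    exact LinearMap.mem_ker.2 (h v (Finset.mem_coe.1 hv))
  exact LinearMap.mem_ker.1 (h1 hw)

/-- dual functionals -/
structure Dual (x : Fin N → V) (y : V) where
  xi : Fin N → Module.Dual F V
  eta : Module.Dual F V
  xi_x : ∀ i j, xi i (x j) = if i = j then 1 else 0
  xi_y : ∀ i, xi i y = 0
  eta_x : ∀ j, eta (x j) = 0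
  eta_y : eta y = 1

lemma Dual.xi_pt {x : Fin N → V} {y : V} (D : Dual (F := F) x y) (i : Fin N) (r : Fin N → F) :
    D.xi i (pt x y r) = r i := by
  simp [pt, D.xi_x, D.xi_y]

lemma Dual.eta_pt {x : Fin N → V} {y : V} (D : Dual (F := F) x y) (r : Fin N → F) :
    D.eta (pt x y r) = 1 := by
  simp [pt, D.eta_x, D.eta_y]

theorem rectFree_of {E : Finset V} {x : Fin N → V} {y : V} (D : Dual (F := F) x y)
    (hE : ¬ HasK4 F E) (hx : ∀ i, x i ∈ E) (R : Finset (Fin N → F))
    (hR : ∀ r ∈ R, IsPt E x y r) : RectFree R := by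
  classical
  intro i j hij a ha b hb c hc d hd h1 h2 h3 h4 h5 h6
  apply hE
  set J : Finset (Fin N) := Finset.univ.filter (fun k => k ≠ i ∧ k ≠ j) with hJ
  set C : Finset V := J.image x with hC
  set W := Submodule.span F (C : Set V) with hW
  have hWx : ∀ k ∈ J, x k ∈ W := fun k hk =>
    Submodule.subset_span (Finset.mem_coe.2 (Finset.mem_image_of_mem x hk))
  have hiJ : i ∉ J := by simp [hJ]
  have hjJ : j ∉ J := by simp [hJ]
  have hoff : ∀ k, k ≠ i → k ≠ j → k ∈ J := fun k hk hk' => by simp [hJ, hk, hk']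
  have hdrop : ∀ r : Fin N → F, ∀ k, k ≠ i → k ≠ j → drop J r k = 0 := by
    intro r k hk hk'
    simp [drop, hoff k hk hk']
  have hdi : ∀ r : Fin N → F, drop J r i = r i := fun r => by simp [drop, hiJ]
  have hdj : ∀ r : Fin N → F, drop J r j = r j := fun r => by simp [drop, hjJ]
  have hvan : ∀ θ : Module.Dual F V, (∀ k ∈ J, θ (x k) = 0) → ∀ w ∈ W, θ w = 0 := by
    intro θ hθ
    apply vanish
    intro v hv
    obtain ⟨k, hk, rfl⟩ := Finset.mem_image.1 hv
    exact hθ k hk
  have hab : pt x y (drop J b) - pt x y (drop J a) = (b i - a i) • x i := by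
    rw [pt_sub_one x y _ _ i, hdi, hdi]
    intro k hk
    by_cases hkj : k = j
    · rw [hkj, hdj, hdj, h1]
    · rw [hdrop _ k hk hkj, hdrop _ k hk hkj]
  have hcd : pt x y (drop J d) - pt x y (drop J c) = (b i - a i) • x i := by
    rw [pt_sub_one x y _ _ i, hdi, hdi, h4, h3]
    intro k hk
    by_cases hkj : k = j
    · rw [hkj, hdj, hdj, h2]
    · rw [hdrop _ k hk hkj, hdrop _ k hk hkj]
  have hac : pt x y (drop J c) - pt x y (drop J a) = (c j - a j) • x j := by
    rw [pt_sub_one x y _ _ j, hdj, hdj]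
    intro k hk
    by_cases hki : k = i
    · rw [hki, hdi, hdi, h3]
    · rw [hdrop _ k hki hk, hdrop _ k hki hk]
  have hα : b i - a i ≠ 0 := fun h0 => h5 (sub_eq_zero.1 h0).symm
  have hβ : c j - a j ≠ 0 := fun h0 => h6 (sub_eq_zero.1 h0).symm
  refine ⟨C, (b i - a i) • x i, -pt x y (drop J a), -pt x y (drop J c), ?_, ?_, ?_, ?_, ?_, ?_,
    ?_, ?_⟩
  · intro v hv
    obtain ⟨k, _, rfl⟩ := Finset.mem_image.1 hv
    exact hx k
  · intro p q s hpqs
    have e1 := hvan D.eta (fun k _ => D.eta_x k) _ hpqs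
    have e2 := hvan (D.xi i) (fun k hk => by
      rw [D.xi_x, if_neg]; rintro rfl; exact hiJ hk) _ hpqs
    have e3 := hvan (D.xi j) (fun k hk => by
      rw [D.xi_x, if_neg]; rintro rfl; exact hjJ hk) _ hpqs
    simp only [map_add, map_smul, map_neg, D.eta_pt, D.xi_pt, D.eta_x, D.xi_x, smul_eq_mul,
      if_true, hdi, hdj, if_neg (Ne.symm hij), mul_zero, mul_one] at e1 e2 e3
    have e4 : p * (b i - a i) = 0 := by
      rw [← h3] at e2
      linear_combination e2 - a i * e1
    have hp : p = 0 := (mul_eq_zero.1 e4).resolve_right hα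
    have e5 : s * (c j - a j) = 0 := by linear_combination a j * e1 - e3
    have hs : s = 0 := (mul_eq_zero.1 e5).resolve_right hβ
    refine ⟨hp, ?_, hs⟩
    rw [hs] at e1
    linear_combination -e1
  · exact hit_x W (hx i) _ hα
  · refine hit_pt W (hR a ha) _ (-1) (by simp) ?_
    rw [smul_neg, neg_smul, neg_neg, one_smul]
    exact pt_drop x y J W hWx a
  · refine hit_pt W (hR c hc) _ (-1) (by simp) ?_
    rw [smul_neg, neg_smul, neg_neg, one_smul]
    exact pt_drop x y J W hWx c
  · refine hit_pt W (hR b hb) _ 1 one_ne_zero ?_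
    rw [one_smul, ← hab, sub_neg_eq_add, sub_add_cancel]
    exact pt_drop x y J W hWx b
  · have e : -pt x y (drop J a) - -pt x y (drop J c) = (c j - a j) • x j := by
      rw [← hac]; abel
    rw [e]
    exact hit_x W (hx j) _ hβ
  · refine hit_pt W (hR d hd) _ 1 one_ne_zero ?_
    rw [one_smul, ← hcd, sub_neg_eq_add, sub_add_cancel]
    exact pt_drop x y J W hWx d

theorem crossFree_of {E : Finset V} {x : Fin N → V} {y : V} (D : Dual (F := F) x y)
    (hE : ¬ HasK4 F E) (hx : ∀ i, x i ∈ E) (R : Finset (Fin N → F))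
    (hR : ∀ r ∈ R, IsPt E x y r) (J : Finset (Fin N)) : CrossFree (R.image (drop J)) := by
  classical
  intro i j hij r hr e he f hf her hei hfr hfj w hw w' hw' hww hag hrel
  have hz : ∀ s ∈ R.image (drop J), ∀ k ∈ J, s k = 0 := by
    intro s hs k hk
    obtain ⟨s0, _, rfl⟩ := Finset.mem_image.1 hs
    simp [drop, hk]
  have hai : e i - r i ≠ 0 := by
    intro h0
    apply her
    funext k
    by_cases hk : k = i
    · rw [hk]; exact sub_eq_zero.1 h0
    · exact hei k hk
  have hbj : f j - r j ≠ 0 := by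
    intro h0
    apply hfr
    funext k
    by_cases hk : k = j
    · rw [hk]; exact sub_eq_zero.1 h0
    · exact hfj k hk
  have hiJ : i ∉ J := by
    intro h0
    apply hai
    rw [hz e he i h0, hz r hr i h0, sub_self]
  have hjJ : j ∉ J := by
    intro h0
    apply hbj
    rw [hz f hf j h0, hz r hr j h0, sub_self]
  obtain ⟨w0, hw0, hw0e⟩ := Finset.mem_image.1 hw
  obtain ⟨w1, hw1, hw1e⟩ := Finset.mem_image.1 hw'
  obtain ⟨r0, hr0, hr0e⟩ := Finset.mem_image.1 hr
  obtain ⟨e0, he0, he0e⟩ := Finset.mem_image.1 he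
  obtain ⟨f0, hf0, hf0e⟩ := Finset.mem_image.1 hf
  by_contra hcon
  push Not at hcon
  obtain ⟨k0, hk0i, hk0j, hk0⟩ := hcon
  have hk0J : k0 ∉ J := by
    intro h0
    apply hk0
    rw [hz w hw k0 h0, hz r hr k0 h0]
  obtain ⟨g, hg, c, hc, hcg⟩ := hR w0 hw0
  apply hE
  set C : Finset V := J.image x ∪ {g} with hC
  set W := Submodule.span F (C : Set V) with hW
  have hWx : ∀ k ∈ J, x k ∈ W := fun k hk =>
    Submodule.subset_span (Finset.mem_coe.2 (Finset.mem_union_left _ (Finset.mem_image_of_mem x hk)))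
  have hWg : g ∈ W := Submodule.subset_span
    (Finset.mem_coe.2 (Finset.mem_union_right _ (Finset.mem_singleton_self g)))
  have hWw : pt x y w ∈ W := by
    have h1 : pt x y w0 ∈ W := by
      rw [← hcg]; exact W.smul_mem _ hWg
    have h2 := pt_drop x y J W hWx w0
    rw [hw0e] at h2
    have h3 : pt x y w = pt x y w0 - (pt x y w0 - pt x y w) := by abel
    rw [h3]
    exact W.sub_mem h1 h2
  have hvan : ∀ k, k ∉ J → ∀ v ∈ W, (D.xi k - w k • D.eta) v = 0 := by
    intro k hk
    apply vanish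
    intro v hv
    rcases Finset.mem_union.1 hv with hv | hv
    · obtain ⟨l, hl, rfl⟩ := Finset.mem_image.1 hv
      have : k ≠ l := by
        rintro rfl; exact hk hl
      simp [D.xi_x, D.eta_x, this]
    · rw [Finset.mem_singleton] at hv
      subst hv
      have h1 : (D.xi k - w k • D.eta) (c • v) = 0 := by
        rw [hcg]
        have : w k = w0 k := by
          rw [← hw0e]; simp [drop, hk]
        simp [D.xi_pt, D.eta_pt, this]
      rw [map_smul, smul_eq_mul] at h1
      exact (mul_eq_zero.1 h1).resolve_left hc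
  have hpe : pt x y r - (-(e i - r i)) • x i = pt x y e := by
    have h1 := pt_sub_one x y e r i hei
    rw [neg_smul, ← h1]; abel
  have hpf : pt x y r - (-(f j - r j)) • x j = pt x y f := by
    have h1 := pt_sub_one x y f r j hfj
    rw [neg_smul, ← h1]; abel
  set lam : F := (w i - w' i) / (e i - r i) with hlam
  have hl1 : w' i - w i = lam * (-(e i - r i)) := by
    rw [hlam]; field_simp; ring
  have hl2 : w' j - w j = lam * (f j - r j) := by
    rw [hlam]; field_simp; linear_combination (-1 : F) * hrel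
  have hl0 : lam ≠ 0 := by
    intro h0
    apply hww
    funext k
    by_cases hki : k = i
    · rw [hki]
      rw [h0, zero_mul] at hl1
      exact (sub_eq_zero.1 hl1).symm
    by_cases hkj : k = j
    · rw [hkj]
      rw [h0, zero_mul] at hl2
      exact (sub_eq_zero.1 hl2).symm
    exact hag k hki hkj
  have hpw : pt x y w' - pt x y w = lam • ((-(e i - r i)) • x i - (-(f j - r j)) • x j) := by
    rw [pt_sub_two x y w' w i j hij (fun k hk hk' => (hag k hk hk').symm), hl1, hl2]
    module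
  refine ⟨C, pt x y r, (-(e i - r i)) • x i, (-(f j - r j)) • x j, ?_, ?_, ?_, ?_, ?_, ?_, ?_, ?_⟩
  · intro v hv
    rcases Finset.mem_union.1 hv with hv | hv
    · obtain ⟨k, _, rfl⟩ := Finset.mem_image.1 hv
      exact hx k
    · rw [Finset.mem_singleton] at hv
      rw [hv]; exact hg
  · intro p q s hpqs
    have e1 := hvan k0 hk0J _ hpqs
    have e2 := hvan i hiJ _ hpqs
    have e3 := hvan j hjJ _ hpqs
    simp only [LinearMap.sub_apply, LinearMap.smul_apply, map_add, map_smul, D.eta_pt, D.xi_pt,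
      D.eta_x, D.xi_x, smul_eq_mul, if_true, if_neg hij, if_neg (Ne.symm hij), if_neg hk0i,
      if_neg hk0j, mul_zero, mul_one] at e1 e2 e3
    have e4 : p * (r k0 - w k0) = 0 := by linear_combination e1
    have hp : p = 0 := (mul_eq_zero.1 e4).resolve_right (fun h0 => hk0 (sub_eq_zero.1 h0).symm)
    subst hp
    have e5 : q * (e i - r i) = 0 := by linear_combination (-1 : F) * e2
    have e6 : s * (f j - r j) = 0 := by linear_combination (-1 : F) * e3
    exact ⟨rfl, (mul_eq_zero.1 e5).resolve_right hai, (mul_eq_zero.1 e6).resolve_right hbj⟩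
  · refine hit_pt W (hR r0 hr0) _ 1 one_ne_zero ?_
    rw [one_smul, ← hr0e]
    exact pt_drop x y J W hWx r0
  · exact hit_x W (hx i) _ (neg_ne_zero.2 hai)
  · exact hit_x W (hx j) _ (neg_ne_zero.2 hbj)
  · refine hit_pt W (hR e0 he0) _ 1 one_ne_zero ?_
    rw [one_smul, hpe, ← he0e]
    exact pt_drop x y J W hWx e0
  · refine hit_pt W (hR w1 hw1) _ lam hl0 ?_
    rw [← hpw]
    have h1 : pt x y w1 - (pt x y w' - pt x y w) = (pt x y w1 - pt x y w') + pt x y w := by abel
    rw [h1]
    apply W.add_mem _ hWw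
    rw [← hw1e]
    exact pt_drop x y J W hWx w1
  · refine hit_pt W (hR f0 hf0) _ 1 one_ne_zero ?_
    rw [one_smul, hpf, ← hf0e]
    exact pt_drop x y J W hWx f0

theorem good_of {E : Finset V} {x : Fin N → V} {y : V} (D : Dual (F := F) x y)
    (hE : ¬ HasK4 F E) (hx : ∀ i, x i ∈ E) (R : Finset (Fin N → F))
    (hR : ∀ r ∈ R, IsPt E x y r) : Good R :=
  ⟨rectFree_of D hE hx R hR, crossFree_of D hE hx R hR⟩

end MPed7341FR
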