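/-
MP_ed7341_co, fixed rank: critical exponent at most 2 if `rank ^ 8 <= 2 q`.
-/
import Pool.Agent.Lib.MP_ed7341_co.FR.Mat

set_option autoImplicit false
set_option linter.unusedSectionVars false

namespace MPed7341FR

open Finset MPed7341

variable {F : Type} [Field F] [Fintype F] [DecidableEq F] {V : Type} [AddCommGroup V] [Module F V]

/-- subconfigurations of a configuration without K4 have no K4. -/
lemma hasK4_mono {E E' : Finset V} (h : E' ⊆ E) (hK : HasK4 F E') : HasK4 F E := by
  obtain ⟨C, v1, v2, v3, hC, hI, h1, h2, h3, h4, h5, h6⟩ := hK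
  have hm : ∀ v : V, Hit (Submodule.span F (C : Set V)) E' v →
      Hit (Submodule.span F (C : Set V)) E v := by
    rintro v ⟨e, he, c, hc⟩
    exact ⟨e, h he, c, hc⟩
  exact ⟨C, v1, v2, v3, hC.trans h, hI, hm _ h1, hm _ h2, hm _ h3, hm _ h4, hm _ h5, hm _ h6⟩

lemma exists_basis (E : Finset V) (d : ℕ)
    (hd : Module.finrank F (Submodule.span F (E : Set V)) = d) :
    ∃ b : Fin d → V, (∀ i, b i ∈ E) ∧
        Submodule.span F (Set.range b) = Submodule.span F (E : Set V) ∧
        LinearIndependent F b := by
  subst hd
  obtain ⟨b0, hb0, hb0s, hb0l⟩ := Submodule.exists_fun_fin_finrank_span_eq F (E : Set V)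
  exact ⟨b0, fun i => Finset.mem_coe.1 (hb0 i), hb0s, hb0l⟩

theorem crit (c n : ℕ) (hc : ∀ m, m < n → ∀ R : Finset (Fin m → F), Good R →
      R.card < Fintype.card F ^ c) : ∀ E : Finset V, (0 : V) ∉ E → ¬ HasK4 F E →
    Module.finrank F (Submodule.span F (E : Set V)) ≤ n →
    ∃ f : Fin c → Module.Dual F V, ∀ e ∈ E, ∃ i, f i e ≠ 0 := by
  classical
  induction n with
  | zero =>
    intro E h0 _ hr
    have hfin : Module.Finite F (Submodule.span F (E : Set V)) :=
      Module.Finite.span_of_finite F E.finite_toSet
    have hbot : Submodule.span F (E : Set V) = ⊥ :=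
      Submodule.finrank_eq_zero.1 (Nat.le_zero.1 hr)
    refine ⟨fun _ => 0, ?_⟩
    intro e he
    exfalso
    have h1 : e ∈ Submodule.span F (E : Set V) := Submodule.subset_span (Finset.mem_coe.2 he)
    rw [hbot, Submodule.mem_bot] at h1
    exact h0 (h1 ▸ he)
  | succ n ih =>
    intro E h0 hE hr
    have ih := ih (fun m hm => hc m (Nat.lt_succ_of_lt hm))
    rcases Nat.lt_or_ge (Module.finrank F (Submodule.span F (E : Set V))) (n + 1) with hlt | hge
    · exact ih E h0 hE (Nat.lt_succ_iff.1 hlt)
    have hreq : Module.finrank F (Submodule.span F (E : Set V)) = n + 1 := le_antisymm hr hge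
    have hfin : Module.Finite F (Submodule.span F (E : Set V)) :=
      Module.Finite.span_of_finite F E.finite_toSet
    obtain ⟨b, hb, hbs, hbl⟩ := exists_basis E (n + 1) hreq
    -- coordinates
    set L : (Fin (n + 1) → F) →ₗ[F] V := Fintype.linearCombination F b with hL
    have hker : LinearMap.ker L = ⊥ :=
      LinearMap.ker_eq_bot.2 (linearIndependent_iff_injective_fintypeLinearCombination.1 hbl)
    obtain ⟨g, hg⟩ := LinearMap.exists_leftInverse_of_injective L hker
    have hgL : ∀ c, g (L c) = c := fun c => by
      have := LinearMap.congr_fun hg c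
      simpa using this
    have hLs : ∀ k, L (Pi.single k 1) = b k := by
      intro k
      rw [hL, Fintype.linearCombination_apply_single, one_smul]
    have hgb : ∀ k, g (b k) = Pi.single k 1 := by
      intro k
      rw [← hLs k, hgL]
    set x : Fin n → V := fun i => b (Fin.castSucc i) with hx
    set y : V := b (Fin.last n) with hy
    have hpt : ∀ c : Fin (n + 1) → F, c (Fin.last n) = 1 →
        L c = pt x y (fun i => c (Fin.castSucc i)) := by
      intro c hc
      rw [hL, Fintype.linearCombination_apply, Fin.sum_univ_castSucc, hc, one_smul]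
      rfl
    let D : Dual (F := F) x y :=
      { xi := fun i => (LinearMap.proj (Fin.castSucc i)) ∘ₗ g
        eta := (LinearMap.proj (Fin.last n)) ∘ₗ g
        xi_x := by
          intro i j
          simp only [LinearMap.comp_apply, LinearMap.proj_apply, hx, hgb, Pi.single_apply]
          simp [Fin.castSucc_inj]
        xi_y := by
          intro i
          simp only [LinearMap.comp_apply, LinearMap.proj_apply, hy, hgb, Pi.single_apply]
          rw [if_neg]
          exact (Fin.castSucc_lt_last i).ne
        eta_x := by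
          intro j
          simp only [LinearMap.comp_apply, LinearMap.proj_apply, hx, hgb, Pi.single_apply]
          rw [if_neg]
          exact (Fin.castSucc_lt_last j).ne'
        eta_y := by
          simp [LinearMap.comp_apply, LinearMap.proj_apply, hy, hgb, Pi.single_apply] }
    have hrange : ∀ e ∈ E, L (g e) = e := by
      intro e he
      have h1 : e ∈ LinearMap.range L := by
        rw [hL, Fintype.range_linearCombination, hbs]
        exact Submodule.subset_span (Finset.mem_coe.2 he)
      obtain ⟨c, hc⟩ := LinearMap.mem_range.1 h1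
      rw [← hc, hgL]
    -- the hyperplane section
    set E0 : Finset V := E.filter (fun e => D.eta e = 0) with hE0
    have hE0s : E0 ⊆ E := Finset.filter_subset _ _
    have hlt : Submodule.span F (E0 : Set V) < Submodule.span F (E : Set V) := by
      refine lt_of_le_of_ne (Submodule.span_mono (by exact_mod_cast hE0s)) ?_
      intro heq
      have h1 : y ∈ Submodule.span F (E0 : Set V) := by
        rw [heq]
        exact Submodule.subset_span (Finset.mem_coe.2 (hb _))
      have h2 := vanish D.eta E0 (fun v hv => (Finset.mem_filter.1 hv).2) y h1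
      rw [D.eta_y] at h2
      exact one_ne_zero h2
    have hrk : Module.finrank F (Submodule.span F (E0 : Set V)) ≤ n := by
      have h1 := Submodule.finrank_lt_finrank_of_lt hlt
      omega
    obtain ⟨f0, hf0⟩ := ih E0 (fun h => h0 (hE0s h)) (fun h => hE (hasK4_mono hE0s h)) hrk
    -- the affine part
    set R : Finset (Fin n → F) := Finset.univ.filter (fun r => IsPt E x y r) with hR
    have hRc : R.card < Fintype.card F ^ c :=
      hc n (Nat.lt_succ_self n) R
        (good_of D hE (fun i => hb _) R (fun r hr => (Finset.mem_filter.1 hr).2))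
    have hbad : (R.image (fun r => fun i : Fin c => - f0 i (pt x y r))).card <
        (Finset.univ : Finset (Fin c → F)).card := by
      calc (R.image (fun r => fun i : Fin c => - f0 i (pt x y r))).card ≤ R.card :=
            Finset.card_image_le
        _ < Fintype.card F ^ c := hRc
        _ = (Finset.univ : Finset (Fin c → F)).card := by
          rw [Finset.card_univ, Fintype.card_fun, Fintype.card_fin]
    obtain ⟨w, _, hw⟩ := Finset.exists_mem_notMem_of_card_lt_card hbad
    refine ⟨fun i => f0 i + w i • D.eta, ?_⟩
    intro e he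
    by_cases he0 : D.eta e = 0
    · obtain ⟨i, hi⟩ := hf0 e (Finset.mem_filter.2 ⟨he, he0⟩)
      refine ⟨i, ?_⟩
      simpa [he0] using hi
    · by_contra hcon
      push Not at hcon
      apply hw
      set a : Fin (n + 1) → F := g ((D.eta e)⁻¹ • e) with ha
      have ha1 : a (Fin.last n) = 1 := by
        have h1 : a (Fin.last n) = D.eta ((D.eta e)⁻¹ • e) := rfl
        rw [h1, map_smul, smul_eq_mul, inv_mul_cancel₀ he0]
      have hc2 : (D.eta e)⁻¹ • e = pt x y (fun i => a (Fin.castSucc i)) := by
        rw [← hpt a ha1, ha, map_smul, map_smul, hrange e he]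
      refine Finset.mem_image.2 ⟨fun i => a (Fin.castSucc i), ?_, ?_⟩
      · exact Finset.mem_filter.2 ⟨Finset.mem_univ _, e, he, (D.eta e)⁻¹, inv_ne_zero he0, hc2⟩
      · funext i
        have h1 : f0 i e + w i * D.eta e = 0 := by simpa using hcon i
        rw [← hc2, map_smul, smul_eq_mul]
        field_simp
        linear_combination (-1 : F) * h1

/-- rank `n` with `n ^ 8 <= 2 q`: critical exponent at most 2. -/
theorem crit_two (E : Finset V) (h0 : (0 : V) ∉ E) (hE : ¬ HasK4 F E)
    (hn : Module.finrank F (Submodule.span F (E : Set V)) ^ 8 ≤ 2 * Fintype.card F) :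
    ∃ f : Fin 2 → Module.Dual F V, ∀ e ∈ E, ∃ i, f i e ≠ 0 := by
  refine crit 2 _ ?_ E h0 hE le_rfl
  intro m hm R hG
  exact card_lt R hG ((Nat.pow_le_pow_left hm 8).trans hn)

/-- rank at most `2 (1 + q + .. + q^(k-1)) + 1`: critical exponent at most `k + 1`. -/
theorem crit_lin (k : ℕ) (E : Finset V) (h0 : (0 : V) ∉ E) (hE : ¬ HasK4 F E)
    (hn : Module.finrank F (Submodule.span F (E : Set V)) ≤
      2 * (∑ i ∈ Finset.range k, Fintype.card F ^ i) + 1) :
    ∃ f : Fin (k + 1) → Module.Dual F V, ∀ e ∈ E, ∃ i, f i e ≠ 0 := by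
  refine crit (k + 1) _ ?_ E h0 hE le_rfl
  intro m hm R hG
  exact card_lt_lin R hG.1 k (by omega)

end MPed7341FR
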